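import Pool.Agent.Lib.MP_607584_al.PSV.Main

namespace Pool.Agent.Results.MP_607584_al.Full

/-- The conjecture of Potocnik, Spiga and Verret, for an arbitrary finite set of points, with the
notions of Mathlib. -/
theorem result (Ω : Type) [Finite Ω] (F : Subgroup (Equiv.Perm Ω))
    (htr : MulAction.IsPretransitive F Ω)
    (hsp : ∀ N : Subgroup F, N.Normal →
      MulAction.IsPretransitive N Ω ∨ ∀ a : Ω, MulAction.stabilizer N a = ⊥)
    (V : Type) (T : SimpleGraph V) (hT : T.IsTree) :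
    ∃ S : Set (Subgroup (T ≃g T)), S.Finite ∧
      ∀ H : Subgroup (T ≃g T),
        (∀ v : V, Set.Finite {g : T ≃g T | g ∈ H ∧ g v = v}) →
        (∀ u v : V, ∃ g ∈ H, g u = v) →
        (∀ v : V, ∃ e : Ω ≃ T.neighborSet v, ∀ σ : Equiv.Perm Ω,
          σ ∈ F ↔ ∃ g ∈ H, g v = v ∧ ∀ a : Ω, g (e a : V) = (e (σ a) : V)) →
        ∃ K ∈ S, ∃ τ : T ≃g T, H = K.map (MulAut.conj τ).toMonoidHom := by
  obtain ⟨d, ⟨φ⟩⟩ := Finite.exists_equiv_fin Ω
  let ψ : Equiv.Perm Ω ≃* Equiv.Perm (Fin d) := φ.permCongrHom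
  have hψ : ∀ (σ : Equiv.Perm Ω) (a : Fin d), ψ σ a = φ (σ (φ.symm a)) := fun _ _ => rfl
  have hψ' : ∀ (σ : Equiv.Perm (Fin d)) (a : Ω), ψ.symm σ a = φ.symm (σ (φ a)) := fun _ _ => rfl
  let F' : Subgroup (Equiv.Perm (Fin d)) := F.comap ψ.symm.toMonoidHom
  have hF' : ∀ σ, σ ∈ F' ↔ ψ.symm σ ∈ F := fun _ => Iff.rfl
  obtain ⟨S, hS, h⟩ := Pool.Agent.PSV.main d F'
    (fun a b => by
      obtain ⟨f, hf⟩ := htr.exists_smul_eq (φ.symm a) (φ.symm b)
      refine ⟨ψ f, by rw [hF', MulEquiv.symm_apply_apply]; exact f.2, ?_⟩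
      rw [hψ]
      have : (f : Equiv.Perm Ω) (φ.symm a) = φ.symm b := hf
      rw [this, Equiv.apply_symm_apply])
    (fun N hN hn => by
      let N' : Subgroup F := N.comap (ψ.toMonoidHom.comp F.subtype)
      have hN' : ∀ f : F, f ∈ N' ↔ ψ f ∈ N := fun _ => Iff.rfl
      have nn : N'.Normal := ⟨fun n hn' f => by
        rw [hN'] at hn' ⊢
        have := hn _ hn' (ψ f) (by rw [hF', MulEquiv.symm_apply_apply]; exact f.2)
        simpa only [Subgroup.coe_mul, Subgroup.coe_inv, map_mul, map_inv] using this⟩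
      rcases hsp N' nn with h | h
      · left
        intro a b
        obtain ⟨f, hf⟩ := h.exists_smul_eq (φ.symm a) (φ.symm b)
        refine ⟨ψ (f : F), (hN' _).1 f.2, ?_⟩
        rw [hψ]
        have : ((f : F) : Equiv.Perm Ω) (φ.symm a) = φ.symm b := hf
        rw [this, Equiv.apply_symm_apply]
      · right
        intro n hn' a ha
        let f : F := ⟨ψ.symm n, (hF' n).1 (hN hn')⟩
        have hf : f ∈ N' := by
          rw [hN']
          simpa only [f, MulEquiv.apply_symm_apply] using hn'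
        have h1 : (⟨f, hf⟩ : N') ∈ MulAction.stabilizer N' (φ.symm a) := by
          change ψ.symm n (φ.symm a) = φ.symm a
          rw [hψ', Equiv.apply_symm_apply, ha]
        rw [h, Subgroup.mem_bot] at h1
        have h2 : ψ.symm n = 1 := congrArg (fun x : N' => ((x : F) : Equiv.Perm Ω)) h1
        simpa using congrArg ψ h2)
    V T hT
  refine ⟨S, hS, fun H h1 h2 h3 => ?_⟩
  obtain ⟨K, hK, τ, hτ⟩ := h H h1 h2 (fun v => by
    obtain ⟨e, he⟩ := h3 v
    refine ⟨e.symm.trans φ, fun σ => ?_⟩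
    rw [hF', he]
    refine exists_congr fun g => and_congr_right fun _ => and_congr_right fun _ => ⟨fun hh w => ?_,
      fun hh a => ?_⟩
    · have := hh (e.symm w)
      rw [Equiv.apply_symm_apply] at this
      rw [this]; rfl
    · rw [hh (e a), hψ']
      simp)
  refine ⟨K, hK, τ, Subgroup.ext fun g => ?_⟩
  rw [hτ, Subgroup.mem_map]
  constructor
  · intro hg
    exact ⟨_, hg, by simp [mul_assoc]⟩
  · rintro ⟨k, hk, rfl⟩
    simpa [mul_assoc] using hk

end Pool.Agent.Results.MP_607584_al.Full
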